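import Pool.Agent.Q204.CK.Main

set_option autoImplicit false

/-!
# Closed choice on Baire space is not Weihrauch reducible to the Cantor-Bendixson problem
-/

namespace Pool.Agent.Results.MP_88baa4_lc.ChoiceNotCB

open Q204.WD Q204.CK

theorem result : ¬ WRed CN CB ∧ ¬ WRed CN ScList :=
  ⟨main, fun h => main (h.trans scList_le)⟩

end Pool.Agent.Results.MP_88baa4_lc.ChoiceNotCB
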